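import Pool.Agent.EventualStability.Defs

open Polynomial

namespace Pool.Agent.EventualStability

variable {K : Type*} [Field K]

theorem ratDegree_algebraMap (p : K[X]) :
    ratDegree (algebraMap K[X] (RatFunc K) p) = p.natDegree := by
  simp [ratDegree, RatFunc.num_algebraMap, RatFunc.denom_algebraMap]

theorem ratComp_algebraMap (p q : K[X]) :
    ratComp (algebraMap K[X] (RatFunc K) p) (algebraMap K[X] (RatFunc K) q)
      = algebraMap K[X] (RatFunc K) (p.comp q) := by
  unfold ratComp
  rw [RatFunc.num_algebraMap, RatFunc.denom_algebraMap]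
  simp only [Polynomial.eval₂_one, div_one]
  rw [Polynomial.comp, Polynomial.hom_eval₂]
  rfl

theorem ratIter_algebraMap (p : K[X]) (n : ℕ) :
    ratIter (algebraMap K[X] (RatFunc K) p) n
      = algebraMap K[X] (RatFunc K) ((p.comp)^[n] X) := by
  unfold ratIter
  induction n with
  | zero => simp
  | succ n ih =>
    rw [Function.iterate_succ_apply', ih, ratComp_algebraMap, Function.iterate_succ_apply']

theorem iterNumerator_algebraMap (p : K[X]) (α : K) (n : ℕ) :
    iterNumerator (algebraMap K[X] (RatFunc K) p) α n = (p.comp)^[n] X - C α := by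
  unfold iterNumerator
  rw [ratIter_algebraMap, RatFunc.num_algebraMap, RatFunc.denom_algebraMap, mul_one]

theorem ratMap_algebraMap_coe (p : K[X]) (x : K) :
    ratMap (algebraMap K[X] (RatFunc K) p) (x : OnePoint K) = ((p.eval x : K) : OnePoint K) := by
  unfold ratMap
  rw [OnePoint.elim_some, RatFunc.num_algebraMap, RatFunc.denom_algebraMap]
  simp

theorem ratMap_algebraMap_infty (p : K[X]) (hp : 1 ≤ p.natDegree) :
    ratMap (algebraMap K[X] (RatFunc K) p) (OnePoint.infty) = OnePoint.infty := by
  unfold ratMap
  rw [OnePoint.elim_infty, ratDegree_algebraMap, RatFunc.num_algebraMap, RatFunc.denom_algebraMap]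
  rw [if_pos]
  rw [Polynomial.coeff_one, if_neg (by omega)]

theorem ratMap_iterate_algebraMap (p : K[X]) (x : K) (n : ℕ) :
    (ratMap (algebraMap K[X] (RatFunc K) p))^[n] (x : OnePoint K)
      = (((fun y => p.eval y)^[n] x : K) : OnePoint K) := by
  induction n with
  | zero => simp
  | succ n ih =>
    rw [Function.iterate_succ_apply', ih, ratMap_algebraMap_coe, Function.iterate_succ_apply']

theorem wandering_algebraMap_iff (p : K[X]) (α : K) :
    Wandering (algebraMap K[X] (RatFunc K) p) α ↔
      Function.Injective (fun n : ℕ => (fun y => p.eval y)^[n] α) := by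
  unfold Wandering
  constructor
  · intro h
    by_contra hinj
    apply h
    -- an orbit with a repetition is finite
    simp only [Function.Injective, not_forall] at hinj
    obtain ⟨a, b, hab, hne⟩ := hinj
    wlog hlt : a < b generalizing a b
    · exact this b a hab.symm (Ne.symm hne) (by omega)
    refine Set.Finite.subset ((Finset.range b).finite_toSet.image
      (fun n : ℕ => (ratMap (algebraMap K[X] (RatFunc K) p))^[n] (α : OnePoint K))) ?_
    rintro _ ⟨n, rfl⟩
    induction n using Nat.strong_induction_on with
    | _ n ihn =>
      by_cases hn : n < b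
      · exact ⟨n, by simpa using hn, rfl⟩
      · obtain ⟨m, hm, hmeq⟩ := ihn (n - b + a) (by omega)
        refine ⟨m, hm, ?_⟩
        simp only at hmeq ⊢
        rw [hmeq]
        simp only [ratMap_iterate_algebraMap]
        congr 1
        have e1 : n = (n - b) + b := by omega
        conv_rhs => rw [e1]
        rw [Function.iterate_add_apply, Function.iterate_add_apply]
        exact congrArg _ hab
  · intro h
    apply Set.infinite_range_of_injective
    intro a b hab
    simp only [ratMap_iterate_algebraMap, OnePoint.coe_eq_coe] at hab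
    exact h hab

theorem numIrredFactors_mul {a b : K[X]} (ha : a ≠ 0) (hb : b ≠ 0) :
    numIrredFactors (a * b) = numIrredFactors a + numIrredFactors b := by
  classical
  unfold numIrredFactors
  rw [UniqueFactorizationMonoid.normalizedFactors_mul ha hb, Multiset.card_add]

theorem one_le_numIrredFactors {a : K[X]} (ha : a ≠ 0) (hu : ¬ IsUnit a) :
    1 ≤ numIrredFactors a := by
  classical
  unfold numIrredFactors
  rw [Nat.one_le_iff_ne_zero]
  intro h
  rw [Multiset.card_eq_zero] at h
  exact hu ((UniqueFactorizationMonoid.normalizedFactors_eq_zero_iff ha).mp h)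

theorem one_le_numIrredFactors_of_natDegree {a : K[X]} (ha : 1 ≤ a.natDegree) :
    1 ≤ numIrredFactors a := by
  apply one_le_numIrredFactors
  · rintro rfl; simp at ha
  · intro hu
    rw [Polynomial.natDegree_eq_zero_of_isUnit hu] at ha
    omega

end Pool.Agent.EventualStability
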