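import Mathlib

/-!
# Definitions for uniform eventual stability (problem MP_e85eb4_nt)

Rational functions over a field `K` are elements of Mathlib's `RatFunc K`; `f.num` and `f.denom`
are coprime and `f.denom` is monic.  The projective line `P^1(K)` is `OnePoint K`, i.e. `K`
together with one extra point `∞`.
-/

open Polynomial

namespace Pool.Agent.EventualStability

variable {K : Type*} [Field K]

/-- The degree of a rational function `f = F/G` in lowest terms: `max (deg F) (deg G)`. -/
noncomputable def ratDegree (f : RatFunc K) : ℕ :=
  max f.num.natDegree f.denom.natDegree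

/-- The composition `f ∘ g` of rational functions, i.e. `f` evaluated at `g ∈ K(x)`. -/
noncomputable def ratComp (f g : RatFunc K) : RatFunc K :=
  f.num.eval₂ RatFunc.C g / f.denom.eval₂ RatFunc.C g

/-- The `n`-th iterate `f^n = f ∘ f ∘ ⋯ ∘ f` as a rational function (`f^0 = x`). -/
noncomputable def ratIter (f : RatFunc K) (n : ℕ) : RatFunc K :=
  (ratComp f)^[n] RatFunc.X

/-- The self-map of `P^1(K) = K ∪ {∞}` given by the rational function `f = F/G`:
a point `x ∈ K` goes to `F(x)/G(x)` if `G(x) ≠ 0` and to `∞` otherwise, and, with `d = deg f`,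
the point `∞` goes to the quotient `F_d/G_d` of the coefficients of `x^d` if `G_d ≠ 0` and to `∞`
otherwise. -/
noncomputable def ratMap (f : RatFunc K) : OnePoint K → OnePoint K := fun P =>
  P.elim
    (open Classical in
      if f.denom.coeff (ratDegree f) = 0 then OnePoint.infty
      else ((f.num.coeff (ratDegree f) / f.denom.coeff (ratDegree f) : K) : OnePoint K))
    (fun x : K => open Classical in
      if f.denom.eval x = 0 then OnePoint.infty
      else ((f.num.eval x / f.denom.eval x : K) : OnePoint K))

/-- `α ∈ K` is wandering for `f`: its forward orbit `{f^n(α) : n ≥ 0}` in `P^1(K)` is infinite. -/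
def Wandering (f : RatFunc K) (α : K) : Prop :=
  (Set.range fun n : ℕ => (ratMap f)^[n] (α : OnePoint K)).Infinite

/-- `f⁻¹(α) ∩ P^1(K) = ∅`: no point of `P^1(K)` is mapped to `α` by `f`. -/
def NoRationalPreimage (f : RatFunc K) (α : K) : Prop :=
  ∀ P : OnePoint K, ratMap f P ≠ (α : OnePoint K)

/-- The polynomial `F_n - α G_n`, where `f^n = F_n/G_n` in lowest terms: the numerator of
`f^n(x) - α`. -/
noncomputable def iterNumerator (f : RatFunc K) (α : K) (n : ℕ) : K[X] :=
  (ratIter f n).num - C α * (ratIter f n).denom

/-- `Ω_K(h)`: the number of irreducible factors of `h` in `K[x]`, counted with multiplicity. -/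
noncomputable def numIrredFactors (h : K[X]) : ℕ :=
  open Classical in (UniqueFactorizationMonoid.normalizedFactors h).card

/-- `κ` is an admissible value of the constant `κ(d, K)`: for every `f ∈ K(x)` of degree `d` and
every `α ∈ K` that is wandering for `f` and has no preimage in `P^1(K)`, the numerator of
`f^n(x) - α` has at most `κ` irreducible factors over `K`, for all `n ≥ 1`. -/
def IsUniformBound (K : Type*) [Field K] (d κ : ℕ) : Prop :=
  ∀ (f : RatFunc K) (α : K), ratDegree f = d → Wandering f α → NoRationalPreimage f α →
    ∀ n : ℕ, 1 ≤ n → numIrredFactors (iterNumerator f α n) ≤ κ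

end Pool.Agent.EventualStability
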