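import Pool.Agent.EventualStability.Basic

open Polynomial

namespace Pool.Agent.EventualStability

variable {K : Type*} [Field K]

theorem iterate_comp_X_pow (d n : ℕ) : ((X ^ d : K[X]).comp)^[n] X = X ^ (d ^ n) := by
  induction n with
  | zero => simp
  | succ n ih =>
    rw [Function.iterate_succ_apply', ih]
    simp [← pow_mul, pow_succ]

theorem iterate_eval_X_pow (d n : ℕ) (x : K) :
    (fun y => (X ^ d : K[X]).eval y)^[n] x = x ^ (d ^ n) := by
  induction n with
  | zero => simp
  | succ n ih =>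
    rw [Function.iterate_succ_apply', ih]
    simp [← pow_mul, pow_succ]

/-- `y^(p^k) - b^(p^k)` has at least `k+1` irreducible factors when `y` is a nonconstant
polynomial. -/
theorem numIrredFactors_pow_sub_pow {p : ℕ} (hp : 2 ≤ p) (y : K[X]) (hy : 1 ≤ y.natDegree)
    (b : K) (k : ℕ) :
    k + 1 ≤ numIrredFactors (y ^ (p ^ k) - C (b ^ (p ^ k))) := by
  induction k with
  | zero =>
    apply one_le_numIrredFactors_of_natDegree
    simpa using hy
  | succ k ih =>
    have hdvd : (y ^ (p ^ k) - C (b ^ (p ^ k))) ∣ (y ^ (p ^ (k + 1)) - C (b ^ (p ^ (k + 1)))) := by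
      have h := sub_dvd_pow_sub_pow (y ^ (p ^ k)) (C (b ^ (p ^ k))) p
      rw [← pow_mul, ← C_pow, ← pow_mul, ← pow_succ] at h
      exact h
    obtain ⟨Q, hQ⟩ := hdvd
    have hdeg : ∀ j : ℕ, (y ^ (p ^ j) - C (b ^ (p ^ j))).natDegree = p ^ j * y.natDegree := by
      intro j
      rw [natDegree_sub_C, natDegree_pow]
    have hpos : ∀ j : ℕ, 1 ≤ (y ^ (p ^ j) - C (b ^ (p ^ j))).natDegree := by
      intro j
      rw [hdeg]
      exact Nat.mul_pos (pow_pos (by omega) _) hy
    have hne : ∀ j : ℕ, (y ^ (p ^ j) - C (b ^ (p ^ j))) ≠ 0 := by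
      intro j h0
      have := hpos j
      rw [h0] at this
      simp at this
    have hQ0 : Q ≠ 0 := by
      rintro rfl
      exact hne (k + 1) (by rw [hQ, mul_zero])
    have hQd : 1 ≤ Q.natDegree := by
      have h1 := hdeg (k + 1)
      rw [hQ, natDegree_mul (hne k) hQ0, hdeg k] at h1
      have h2 : p ^ k * y.natDegree < p ^ (k + 1) * y.natDegree := by
        apply Nat.mul_lt_mul_of_pos_right _ hy
        exact Nat.pow_lt_pow_right (by omega) (by omega)
      omega
    rw [hQ, numIrredFactors_mul (hne k) hQ0]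
    have := one_le_numIrredFactors_of_natDegree hQd
    omega

/-- In a number field, iterated extraction of `q`-th roots starting from `2` stops. -/
theorem exists_not_qth_power (K : Type*) [Field K] [NumberField K] {q : ℕ} (hq : 2 ≤ q) :
    ∃ b : K, (∃ k : ℕ, b ^ (q ^ k) = 2) ∧ ¬ ∃ c : K, c ^ q = b := by
  by_contra hcon
  push Not at hcon
  have key : ∀ k : ℕ, ∃ b : K, b ^ (q ^ k) = 2 := by
    intro k
    induction k with
    | zero => exact ⟨2, by simp⟩
    | succ k ih =>
      obtain ⟨b, hb⟩ := ih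
      obtain ⟨c, hc⟩ := hcon b ⟨k, hb⟩
      exact ⟨c, by rw [pow_succ', pow_mul, hc, hb]⟩
  set m := Module.finrank ℚ K with hm
  have hmpos : 0 < m := Module.finrank_pos
  obtain ⟨b, hb⟩ := key m
  have hN : (Algebra.norm ℚ b) ^ (q ^ m) = 2 ^ m := by
    rw [← map_pow, hb]
    have : (2 : K) = algebraMap ℚ K 2 := by simp
    rw [this, Algebra.norm_algebraMap]
  have hne : Algebra.norm ℚ b ≠ 0 := by
    intro h0
    rw [h0, zero_pow (by positivity)] at hN
    exact absurd hN.symm (by positivity)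
  have : Fact (Nat.Prime 2) := ⟨Nat.prime_two⟩
  have hv := congrArg (padicValRat 2) hN
  rw [padicValRat.pow, padicValRat.pow] at hv
  have h2 : padicValRat 2 (2 : ℚ) = 1 := by
    have := padicValRat.self (p := 2) (by norm_num)
    simpa using this
  rw [h2, mul_one] at hv
  have hdvd : ((q ^ m : ℕ) : ℤ) ∣ (m : ℤ) := ⟨_, hv.symm⟩
  have hdvd' : q ^ m ∣ m := by exact_mod_cast hdvd
  have hle := Nat.le_of_dvd hmpos hdvd'
  have hlt : m < q ^ m := Nat.lt_pow_self (by omega)
  omega

/-- Over a number field, the power map of degree `d`, `d` not a prime power, does not satisfy any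
uniform bound. -/
theorem not_isUniformBound (K : Type*) [Field K] [NumberField K] (d : ℕ) (hd : 2 ≤ d)
    (hpp : ¬ IsPrimePow d) (κ : ℕ) : ¬ IsUniformBound K d κ := by
  intro hbound
  -- two distinct primes dividing `d`
  obtain ⟨p, hp, hpd⟩ := Nat.exists_prime_and_dvd (show d ≠ 1 by omega)
  obtain ⟨q, hq, hqd, hqp⟩ : ∃ q : ℕ, q.Prime ∧ q ∣ d ∧ q ≠ p := by
    by_contra hcon
    push Not at hcon
    apply hpp
    rw [isPrimePow_iff_unique_prime_dvd]
    exact ⟨p, ⟨hp, hpd⟩, fun r hr => hcon r hr.1 hr.2⟩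
  obtain ⟨b, ⟨j, hj⟩, hb⟩ := exists_not_qth_power K hq.two_le
  have hb0 : b ≠ 0 := by
    rintro rfl
    rw [zero_pow (pow_ne_zero _ hq.ne_zero)] at hj
    exact two_ne_zero hj.symm
  have hbu : ∀ N : ℕ, 0 < N → b ^ N ≠ 1 := by
    intro N hN h1
    have h2 : (2 : K) ^ N = 1 := by
      rw [← hj, ← pow_mul, mul_comm, pow_mul, h1, one_pow]
    have h3 : ((2 ^ N : ℕ) : K) = ((1 : ℕ) : K) := by push_cast; exact h2
    have h4 := Nat.cast_injective h3
    have h5 : 1 < 2 ^ N := Nat.one_lt_two_pow (by omega)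
    omega
  set k := κ + 1 with hk
  set α := b ^ (p ^ k) with hα
  have hα0 : α ≠ 0 := pow_ne_zero _ hb0
  have hdeg : ratDegree (algebraMap K[X] (RatFunc K) (X ^ d)) = d := by
    rw [ratDegree_algebraMap, natDegree_X_pow]
  have hw : Wandering (algebraMap K[X] (RatFunc K) (X ^ d)) α := by
    rw [wandering_algebraMap_iff]
    intro m n hmn
    simp only [iterate_eval_X_pow] at hmn
    by_contra hne
    wlog hlt : m < n generalizing m n
    · exact this hmn.symm (Ne.symm hne) (by omega)
    have hlt' : d ^ m < d ^ n := Nat.pow_lt_pow_right (by omega) hlt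
    have h1 : α ^ (d ^ n - d ^ m) = 1 := by
      have h2 : α ^ (d ^ n) = α ^ (d ^ m) * α ^ (d ^ n - d ^ m) := by
        rw [← pow_add]; congr 1; omega
      rw [← hmn] at h2
      have h3 : α ^ (d ^ m) * 1 = α ^ (d ^ m) * α ^ (d ^ n - d ^ m) := by rw [mul_one]; exact h2
      exact (mul_left_cancel₀ (pow_ne_zero _ hα0) h3).symm
    rw [hα, ← pow_mul] at h1
    exact hbu _ (Nat.mul_pos (pow_pos hp.pos _) (by omega)) h1
  have hno : NoRationalPreimage (algebraMap K[X] (RatFunc K) (X ^ d)) α := by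
    intro P hP
    induction P using OnePoint.rec with
    | infty =>
      rw [ratMap_algebraMap_infty _ (by rw [natDegree_X_pow]; omega)] at hP
      exact OnePoint.infty_ne_coe _ hP
    | coe x =>
      rw [ratMap_algebraMap_coe, OnePoint.coe_eq_coe] at hP
      simp only [eval_pow, eval_X] at hP
      obtain ⟨e, he⟩ := hqd
      -- `x ^ d = b ^ (p ^ k)` with `q ∣ d` makes `b` a `q`-th power
      have hx0 : x ≠ 0 := by
        rintro rfl
        rw [zero_pow (by omega)] at hP
        exact hα0 hP.symm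
      have hcop : Nat.Coprime q (p ^ k) :=
        Nat.Coprime.pow_right _ ((Nat.coprime_primes hq hp).mpr hqp)
      have hbez := Nat.gcd_eq_gcd_ab q (p ^ k)
      rw [hcop] at hbez
      apply hb
      refine ⟨b ^ (Nat.gcdA q (p ^ k)) * (x ^ e) ^ (Nat.gcdB q (p ^ k)), ?_⟩
      have hx : (x ^ e) ^ (q : ℤ) = b ^ ((p ^ k : ℕ) : ℤ) := by
        rw [zpow_natCast, zpow_natCast, ← pow_mul, mul_comm e q, ← he]
        exact hP
      rw [mul_pow, ← zpow_natCast, ← zpow_natCast, ← zpow_mul, ← zpow_mul,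
        mul_comm (Nat.gcdA q (p ^ k)), mul_comm (Nat.gcdB q (p ^ k)), zpow_mul (x ^ e), hx,
        ← zpow_mul, ← zpow_add₀ hb0, ← hbez]
      simp
  have hmain := hbound _ α hdeg hw hno k (by omega)
  rw [iterNumerator_algebraMap, iterate_comp_X_pow] at hmain
  obtain ⟨e, he⟩ : p ^ k ∣ d ^ k := pow_dvd_pow_of_dvd hpd k
  have hepos : 0 < e := by
    rcases Nat.eq_zero_or_pos e with h | h
    · rw [h, mul_zero] at he
      exact absurd he (pow_ne_zero _ (by omega))
    · exact h
  have hfac := numIrredFactors_pow_sub_pow hp.two_le (X ^ e : K[X])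
    (by rw [natDegree_X_pow]; exact hepos) b k
  rw [← pow_mul, mul_comm e, ← he, ← hα] at hfac
  omega

end Pool.Agent.EventualStability
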