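import Pool.Agent.EventualStability.Basic

open Polynomial

namespace Pool.Agent.EventualStability

/-- The polynomial `x^2 - 119/48`. -/
noncomputable def quadPoly : ℚ[X] := X ^ 2 - C (119 / 48)

theorem quadPoly_natDegree : quadPoly.natDegree = 2 := by
  unfold quadPoly
  rw [natDegree_sub_C, natDegree_X_pow]

theorem quadPoly_eval (y : ℚ) : quadPoly.eval y = y ^ 2 - 119 / 48 := by
  simp [quadPoly]

theorem quadPoly_orbit_ge (n : ℕ) : (13 / 4 : ℚ) ≤ (fun y => quadPoly.eval y)^[n] (13 / 4) := by
  induction n with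
  | zero => simp
  | succ n ih =>
    rw [Function.iterate_succ_apply', quadPoly_eval]
    nlinarith

theorem quadPoly_injective :
    Function.Injective (fun n : ℕ => (fun y => quadPoly.eval y)^[n] (13 / 4 : ℚ)) := by
  apply StrictMono.injective
  apply strictMono_nat_of_lt_succ
  intro n
  rw [Function.iterate_succ_apply', quadPoly_eval]
  have := quadPoly_orbit_ge n
  nlinarith

/-- `275/48` is not the square of a rational number. -/
theorem not_sq (x : ℚ) : x ^ 2 ≠ 275 / 48 := by
  intro hx
  have h33 : IsSquare ((33 : ℤ) : ℚ) := by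
    refine ⟨x * 12 / 5, ?_⟩
    push_cast
    nlinarith
  rw [Rat.isSquare_intCast_iff] at h33
  obtain ⟨r, hr⟩ := h33
  have h1 : r ≤ 5 := by nlinarith
  have h2 : -5 ≤ r := by nlinarith
  interval_cases r <;> omega

theorem quadPoly_not_isUniformBound : ¬ IsUniformBound ℚ 2 3 := by
  intro hbound
  have hdeg : ratDegree (algebraMap ℚ[X] (RatFunc ℚ) quadPoly) = 2 := by
    rw [ratDegree_algebraMap, quadPoly_natDegree]
  have hw : Wandering (algebraMap ℚ[X] (RatFunc ℚ) quadPoly) (13 / 4) := by
    rw [wandering_algebraMap_iff]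
    exact quadPoly_injective
  have hno : NoRationalPreimage (algebraMap ℚ[X] (RatFunc ℚ) quadPoly) (13 / 4) := by
    intro P hP
    induction P using OnePoint.rec with
    | infty =>
      rw [ratMap_algebraMap_infty _ (by rw [quadPoly_natDegree]; omega)] at hP
      exact OnePoint.infty_ne_coe _ hP
    | coe x =>
      rw [ratMap_algebraMap_coe, OnePoint.coe_eq_coe, quadPoly_eval] at hP
      apply not_sq x
      linarith
  have hmain := hbound _ (13 / 4) hdeg hw hno 3 (by omega)
  rw [iterNumerator_algebraMap] at hmain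
  have hfac : (quadPoly.comp)^[3] X - C (13 / 4) =
      (X ^ 2 + C (-2) * X + C (37 / 48)) * ((X ^ 2 + C 2 * X + C (37 / 48)) *
        ((X ^ 2 + C (1 / 2) * X + C (-173 / 48)) * (X ^ 2 + C (-1 / 2) * X + C (-173 / 48)))) := by
    apply Polynomial.funext
    intro r
    simp only [Function.iterate_succ_apply', Function.iterate_zero_apply, quadPoly, eval_sub,
      eval_comp, eval_pow, eval_X, eval_C, eval_mul, eval_add]
    ring
  rw [hfac] at hmain
  have hd : ∀ b c : ℚ, (X ^ 2 + C b * X + C c).natDegree = 2 := by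
    intro b c
    have h := natDegree_quadratic (R := ℚ) (a := 1) (b := b) (c := c) one_ne_zero
    simpa using h
  have hne : ∀ b c : ℚ, (X ^ 2 + C b * X + C c) ≠ 0 := by
    intro b c h0
    have := hd b c
    rw [h0] at this
    simp at this
  have h1 : ∀ b c : ℚ, 1 ≤ numIrredFactors (X ^ 2 + C b * X + C c) := by
    intro b c
    apply one_le_numIrredFactors_of_natDegree
    rw [hd]; omega
  rw [numIrredFactors_mul (hne _ _) (mul_ne_zero (hne _ _) (mul_ne_zero (hne _ _) (hne _ _))),
    numIrredFactors_mul (hne _ _) (mul_ne_zero (hne _ _) (hne _ _)),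
    numIrredFactors_mul (hne _ _) (hne _ _)] at hmain
  have a1 := h1 (-2) (37 / 48)
  have a2 := h1 2 (37 / 48)
  have a3 := h1 (1 / 2) (-173 / 48)
  have a4 := h1 (-1 / 2) (-173 / 48)
  omega

end Pool.Agent.EventualStability
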